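import Pool.Agent.L5helper54.BA.Code

set_option autoImplicit false
open Cardinal Set

namespace Pool.L5helper54.BA

universe u

instance countable_coord (t : Shape) : Countable (Coord t) := by
  induction t with
  | leaf => exact (inferInstance : Countable ℕ)
  | node f ih => 
    have := ih
    exact (inferInstance : Countable (Σ n, Coord (f n)))

/-! ### B4: decoding -/

section Bd

variable {X : Type u} {C : Ordinal.{0} → Set (Set X)}

/-- uniformly bounded class -/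
def Bd (C : Ordinal.{0} → Set (Set X)) {ι : Type*} (A : ι → Set X) : Prop :=
  ∃ δ < (aleph 1).ord, ∀ i, A i ∈ C δ

theorem Bd.of_countable (hC : Hier C) {ι : Type*} [Countable ι] (A : ι → Set X)
    (h : ∀ i, ∃ α < (aleph 1).ord, A i ∈ C α) : Bd C A := by
  choose α hα hA using h
  obtain ⟨β, hβ, hle⟩ := sup_lt α hα
  exact ⟨β, hβ, fun i => hC.mono _ _ (hle i) (hA i)⟩

theorem Bd.compl (hC : Hier C) {ι : Type*} {A : ι → Set X} (h : Bd C A) :
    Bd C (fun i => (A i)ᶜ) := by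
  obtain ⟨δ, hδ, h⟩ := h
  exact ⟨δ, hδ, fun i => hC.compl _ _ (h i)⟩

theorem Bd.iUnion (hC : Hier C) (hE : ∃ α < (aleph 1).ord, (∅ : Set X) ∈ C α)
    {ι κ : Type*} [Countable κ] {A : κ → ι → Set X} (h : ∀ k, Bd C (A k)) :
    Bd C (fun i => ⋃ k, A k i) := by
  obtain ⟨α, hα, h0⟩ := hE
  by_cases hne : Nonempty κ
  · choose δ hδ hA using h
    obtain ⟨β, hβ, hle⟩ := sup_lt δ hδ
    exact ⟨β + 2, add_two_lt hβ, fun i =>
      hC.union_mem _ hβ fun k => hC.mono _ _ (hle k) (hA k i)⟩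
  · refine ⟨α, hα, fun i => ?_⟩
    have : (⋃ k, A k i) = ∅ := by
      rw [not_nonempty_iff] at hne
      simp
    change (⋃ k, A k i) ∈ C α
    rw [this]
    exact h0

theorem Bd.union (hC : Hier C) {ι : Type*} {A B : ι → Set X} (h : Bd C A) (h' : Bd C B) :
    Bd C (fun i => A i ∪ B i) := by
  obtain ⟨δ, hδ, h⟩ := h
  obtain ⟨δ', hδ', h'⟩ := h'
  exact ⟨max δ δ' + 2, add_two_lt (max_lt hδ hδ'), fun i =>
    hC.union2 (max_lt hδ hδ') (hC.mono _ _ (le_max_left _ _) (h i))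
      (hC.mono _ _ (le_max_right _ _) (h' i))⟩

theorem Bd.inter (hC : Hier C) {ι : Type*} {A B : ι → Set X} (h : Bd C A) (h' : Bd C B) :
    Bd C (fun i => A i ∩ B i) := by
  have := ((h.compl hC).union hC (h'.compl hC)).compl hC
  simpa [compl_union] using this

theorem Bd.comp {ι κ : Type*} {A : ι → Set X} (h : Bd C A) (f : κ → ι) :
    Bd C (fun k => A (f k)) := by
  obtain ⟨δ, hδ, h⟩ := h
  exact ⟨δ, hδ, fun k => h _⟩

end Bd

section decode

variable {X : Type u} {S : Type u} {J : Type} (F : S → Set X) (E : J → Set S)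

/-- the indices whose signature on `a` is `b` -/
def Sab (p : Finset J × Finset J) : Set S := {s | ∀ j ∈ p.1, (s ∈ E j ↔ j ∈ p.2)}

/-- the points at which the signature on `a` determines the signature -/
def Ma (p : Finset J × Finset J) : Set X :=
  {x | ∀ s s', x ∈ F s → x ∈ F s' → (∀ j ∈ p.1, (s ∈ E j ↔ s' ∈ E j)) →
    ∀ j, (s ∈ E j ↔ s' ∈ E j)}

/-- `P` is a union of atoms -/
def Satu (P : Set S) : Prop := ∀ s s', (∀ j, (s ∈ E j ↔ s' ∈ E j)) → s ∈ P → s' ∈ P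

theorem U_eq (pf : ∀ x, {s | x ∈ F s}.Finite) (P : Set S) :
    U F P = ⋃ p : Finset J × Finset J, (Ma F E p ∩ U F (P ∩ Sab E p)) := by
  classical
  ext x
  simp only [mem_iUnion, mem_inter_iff, mem_U]
  constructor
  · rintro ⟨s, hs, hx⟩
    let g : S × S → Finset J := fun q =>
      if h : ∃ j, ¬ (q.1 ∈ E j ↔ q.2 ∈ E j) then {h.choose} else ∅
    let T := (pf x).toFinset
    let a := (T ×ˢ T).biUnion g
    refine ⟨(a, a.filter (fun j => s ∈ E j)), ?_, s, ⟨hs, ?_⟩, hx⟩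
    · intro s1 s2 h1 h2 hag
      by_contra hcon
      push Not at hcon
      have hcon' : ∃ j, ¬ (s1 ∈ E j ↔ s2 ∈ E j) := by
        obtain ⟨j, hj⟩ := hcon
        exact ⟨j, by tauto⟩
      have hg : hcon'.choose ∈ g (s1, s2) := by
        simp only [g]
        rw [dif_pos hcon']
        exact Finset.mem_singleton_self _
      have hmem : hcon'.choose ∈ a := by
        refine Finset.mem_biUnion.2 ⟨(s1, s2), ?_, hg⟩
        simp only [Finset.mem_product, T, Set.Finite.mem_toFinset, mem_ofPred_eq]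
        exact ⟨h1, h2⟩
      exact hcon'.choose_spec (hag _ hmem)
    · intro j hj
      simp only [Finset.mem_filter]
      have hj' : j ∈ a := hj
      tauto
  · rintro ⟨p, -, s, hs, hx⟩
    exact ⟨s, hs.1, hx⟩

theorem Ma_compl (p : Finset J × Finset J) :
    (Ma F E p)ᶜ = ⋃ q : Finset J × J,
      (U F (Sab E (p.1, q.1) ∩ E q.2) ∩ U F (Sab E (p.1, q.1) ∩ (E q.2)ᶜ)) := by
  classical
  ext x
  simp only [mem_compl_iff, Ma, mem_ofPred_eq, mem_iUnion, mem_inter_iff, mem_U]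
  constructor
  · intro h
    push Not at h
    obtain ⟨s, s', hx, hx', hag, j, hj⟩ := h
    have key : ∀ s s', x ∈ F s → x ∈ F s' → (∀ j ∈ p.1, (s ∈ E j ↔ s' ∈ E j)) →
        s ∈ E j → s' ∉ E j → ∃ i : Finset J × J,
        (∃ s, (s ∈ Sab E (p.1, i.1) ∧ s ∈ E i.2) ∧ x ∈ F s) ∧
          ∃ s, (s ∈ Sab E (p.1, i.1) ∧ s ∉ E i.2) ∧ x ∈ F s := by
      intro s s' hx hx' hag h1 h2
      refine ⟨(p.1.filter (fun j => s ∈ E j), j), ⟨s, ⟨?_, h1⟩, hx⟩, ⟨s', ⟨?_, h2⟩, hx'⟩⟩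
      · intro i hi
        simp only [Finset.mem_filter]
        have hi' : i ∈ p.1 := hi
        tauto
      · intro i hi
        simp only [Finset.mem_filter]
        have hi' : i ∈ p.1 := hi
        have := hag i hi'
        tauto
    rcases hj with ⟨h1, h2⟩ | ⟨h1, h2⟩
    · exact key s s' hx hx' hag h1 h2
    · exact key s' s hx' hx (fun j hj => (hag j hj).symm) h2 h1
  · rintro ⟨q, ⟨s, ⟨hs, hsE⟩, hx⟩, s', ⟨hs', hsE'⟩, hx'⟩ hall
    have := hall s s' hx hx' (fun j hj => (hs j hj).trans (hs' j hj).symm) q.2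
    exact hsE' (this.1 hsE)

theorem phi_compl (P : Set S) (hP : Satu E P) (p : Finset J × Finset J) :
    Ma F E p ∩ U F (Pᶜ ∩ Sab E p) =
      (Ma F E p ∩ U F (Sab E p)) ∩ (Ma F E p ∩ U F (P ∩ Sab E p))ᶜ := by
  ext x
  simp only [mem_inter_iff, mem_compl_iff, mem_U, not_and, not_exists]
  constructor
  · rintro ⟨hM, s, ⟨hs, hsp⟩, hx⟩
    refine ⟨⟨hM, s, hsp, hx⟩, fun _ s' ⟨hs', hsp'⟩ hx' => hs ?_⟩
    refine hP s' s (fun j => ?_) hs'
    exact hM s' s hx' hx (fun j hj => (hsp' j hj).trans (hsp j hj).symm) j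
  · rintro ⟨⟨hM, s, hsp, hx⟩, h⟩
    exact ⟨hM, s, ⟨fun hs => h hM s ⟨hs, hsp⟩ hx, hsp⟩, hx⟩

theorem phi_iUnion {κ : Type*} (P : κ → Set S) (p : Finset J × Finset J) :
    Ma F E p ∩ U F ((⋃ k, P k) ∩ Sab E p) = ⋃ k, (Ma F E p ∩ U F (P k ∩ Sab E p)) := by
  rw [iUnion_inter, U_iUnion, inter_iUnion]

theorem decode_aux [Countable J]
    {C : Ordinal.{0} → Set (Set X)} (hC : Hier C)
    (bor : ∀ T : Set S, ∃ α < (aleph 1).ord, U F T ∈ C α)
    {Z : Type u} (B : ℕ → Set Z) (t : Shape) :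
    ∀ E' : Coord t → Set S, (∀ j, ∃ i, E' j = E i) →
      (∀ z : Z, Satu E {s | z ∈ evalC B t (fun j => s ∈ E' j)}) ∧
      ∀ p, Bd C (fun z : Z => Ma F E p ∩ U F ({s | z ∈ evalC B t (fun j => s ∈ E' j)} ∩ Sab E p)) := by
  classical
  have hE0 : ∃ α < (aleph 1).ord, (∅ : Set X) ∈ C α := by
    obtain ⟨α, hα, h⟩ := bor ∅
    refine ⟨α, hα, ?_⟩
    have : U F ∅ = ∅ := by simp [U]
    rwa [this] at h
  have hU : ∀ {κ : Type} [Countable κ] (T : κ → Set S), Bd C (fun k => U F (T k)) :=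
    fun T => Bd.of_countable hC _ fun k => bor _
  have hM : Bd C (fun p => Ma F E p) := by
    have h1 : Bd C (fun p => (Ma F E p)ᶜ) := by
      simp_rw [Ma_compl]
      refine Bd.iUnion hC hE0 fun q => ?_
      exact Bd.inter hC (hU _) (hU _)
    have := h1.compl hC
    simpa using this
  induction t with
  | leaf =>
    intro E' hE'
    change ((j : ℕ) → ∃ i, E' j = E i) at hE'
    have hform : ∀ z : Z, {s | z ∈ evalC B Shape.leaf (fun j => s ∈ E' j)} =
        ⋃ n : ℕ, (E' n ∩ {_s | z ∈ B n}) := by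
      intro z
      ext s
      simp only [evalC, mem_ofPred_eq, mem_iUnion, mem_inter_iff]
    refine ⟨fun z => ?_, fun p => ?_⟩
    · rw [hform]
      intro s s' hag hs
      simp only [mem_iUnion, mem_inter_iff, mem_ofPred_eq] at hs ⊢
      obtain ⟨n, hn, hz⟩ := hs
      obtain ⟨i, hi⟩ := hE' n
      refine ⟨n, ?_, hz⟩
      rw [hi] at hn ⊢
      exact (hag i).1 hn
    · simp_rw [hform, phi_iUnion]
      refine Bd.iUnion hC hE0 fun n => ?_
      obtain ⟨α, hα, h0⟩ := hE0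
      obtain ⟨β, hβ, h1⟩ := bor (E' n ∩ Sab E p)
      obtain ⟨γ, hγ, h2⟩ := hM
      have h3 : Bd C (fun b : Bool => if b then Ma F E p ∩ U F (E' n ∩ Sab E p) else ∅) := by
        refine Bd.of_countable hC _ fun b => ?_
        cases b
        · exact ⟨α, hα, by simpa using h0⟩
        · have : Bd C (fun _ : Unit => Ma F E p ∩ U F (E' n ∩ Sab E p)) :=
            Bd.inter hC ⟨γ, hγ, fun _ => h2 p⟩ ⟨β, hβ, fun _ => h1⟩
          obtain ⟨δ, hδ, h⟩ := this
          exact ⟨δ, hδ, by simpa using h ()⟩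
      have h4 := h3.comp (fun z : Z => decide (z ∈ B n))
      convert h4 using 2 with z
      by_cases hz : z ∈ B n
      · simp [hz]
      · simp [hz, U]
  | node f ih =>
    intro E' hE'
    have ih' := fun n => ih n (fun j => E' ⟨n, j⟩) (fun j => hE' ⟨n, j⟩)
    have hform : ∀ z : Z, {s | z ∈ evalC B (Shape.node f) (fun j => s ∈ E' j)} =
        (⋃ n : ℕ, {s | z ∈ evalC B (f n) (fun j => s ∈ E' ⟨n, j⟩)})ᶜ := by
      intro z
      ext s
      simp only [evalC, mem_ofPred_eq, mem_iUnion, mem_compl_iff]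
    have hsat : ∀ z : Z, Satu E (⋃ n : ℕ, {s | z ∈ evalC B (f n) (fun j => s ∈ E' ⟨n, j⟩)}) := by
      intro z s s' hag hs
      simp only [mem_iUnion] at hs ⊢
      obtain ⟨n, hn⟩ := hs
      exact ⟨n, (ih' n).1 z s s' hag hn⟩
    refine ⟨fun z => ?_, fun p => ?_⟩
    · rw [hform]
      intro s s' hag hs hs'
      exact hs (hsat z s' s (fun j => (hag j).symm) hs')
    · have h1 : Bd C (fun z : Z => ⋃ n, (Ma F E p ∩
          U F ({s | z ∈ evalC B (f n) (fun j => s ∈ E' ⟨n, j⟩)} ∩ Sab E p))) :=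
        Bd.iUnion hC hE0 fun n => (ih' n).2 p
      have h2 : Bd C (fun _ : Z => Ma F E p ∩ U F (Sab E p)) :=
        Bd.inter hC (hM.comp _) ((hU (fun _ : Unit => Sab E p)).comp (fun _ => ()))
      have h3 := h2.inter hC (h1.compl hC)
      convert h3 using 2 with z
      rw [hform, phi_compl F E _ (hsat z), phi_iUnion]

end decode

/-- (B4) decoding: the sets `{s : z ∈ eval (c s)}` have uniformly bounded class -/
theorem decode_bounded {X : Type u} {S : Type u} (F : S → Set X)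
    (pf : ∀ x, {s | x ∈ F s}.Finite) {C : Ordinal.{0} → Set (Set X)} (hC : Hier C)
    (bor : ∀ T : Set S, ∃ α < (aleph 1).ord, U F T ∈ C α)
    {Z : Type u} (B : ℕ → Set Z) (t : Shape) (E : Coord t → Set S) :
    ∃ δ < (aleph 1).ord, ∀ z : Z, U F {s | z ∈ evalC B t (fun j => s ∈ E j)} ∈ C δ := by
  have hE0 : ∃ α < (aleph 1).ord, (∅ : Set X) ∈ C α := by
    obtain ⟨α, hα, h⟩ := bor ∅
    refine ⟨α, hα, ?_⟩
    have : U F ∅ = ∅ := by simp [U]
    rwa [this] at h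
  have h := (decode_aux F E hC bor B t E (fun j => ⟨j, rfl⟩)).2
  have h' := Bd.iUnion hC hE0 h
  obtain ⟨δ, hδ, h''⟩ := h'
  refine ⟨δ, hδ, fun z => ?_⟩
  rw [U_eq F E pf]
  exact h'' z

/-! ### B5: encoding -/

section encode

variable {X : Type u} {Z : Type u} (e : Z → X) (B : ℕ → Set Z)

/-- all members of `𝒜` have codes of one and the same shape -/
def Enc (𝒜 : Set (Set X)) : Prop :=
  ∃ t : Shape, ∀ A ∈ 𝒜, ∃ c : Coord t → Prop, ∀ z, e z ∈ A ↔ z ∈ evalC B t c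

theorem Enc.mono {𝒜 𝒜' : Set (Set X)} (h : 𝒜 ⊆ 𝒜') (h' : Enc e B 𝒜') : Enc e B 𝒜 := by
  obtain ⟨t, ht⟩ := h'
  exact ⟨t, fun A hA => ht A (h hA)⟩

theorem Enc.node {𝒜 : ℕ → Set (Set X)} (h : ∀ n, Enc e B (𝒜 n)) :
    Enc e B {A | ∃ f : ℕ → Set X, (∀ n, f n ∈ 𝒜 n) ∧ A = (⋃ n, f n)ᶜ} := by
  choose t ht using h
  refine ⟨Shape.node t, ?_⟩
  rintro A ⟨f, hf, rfl⟩
  choose c hc using fun n => ht n (f n) (hf n)
  refine ⟨fun j => c j.1 j.2, fun z => ?_⟩
  simp only [evalC, mem_compl_iff, mem_iUnion, mem_ofPred_eq, hc]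

theorem Enc.compl {𝒜 : Set (Set X)} (h : Enc e B 𝒜) : Enc e B {A | Aᶜ ∈ 𝒜} := by
  refine Enc.mono e B ?_ (Enc.node e B (fun _ : ℕ => h))
  intro A hA
  exact ⟨fun _ => Aᶜ, fun _ => hA, by rw [iUnion_const, compl_compl]⟩

/-- countable unions of members of countably many encodable classes containing the empty set -/
theorem Enc.iUnion {κ : Type*} [Countable κ] [Nonempty κ] {𝒜 : κ → Set (Set X)}
    (h : ∀ k, Enc e B (𝒜 k)) (h0 : ∀ k, ∅ ∈ 𝒜 k) :
    Enc e B {A | ∃ f : ℕ → Set X, (∀ n, ∃ k, f n ∈ 𝒜 k) ∧ A = ⋃ n, f n} := by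
  classical
  obtain ⟨g, hg⟩ := exists_surjective_nat κ
  have h1 := (Enc.node e B (𝒜 := fun n : ℕ => 𝒜 (g (Nat.unpair n).2)) (fun n => h _)).compl
  refine Enc.mono e B ?_ h1
  rintro A ⟨f, hf, rfl⟩
  choose k hk using hf
  choose m hm using fun n => hg (k n)
  refine ⟨fun p => if (Nat.unpair p).2 = m (Nat.unpair p).1 then f (Nat.unpair p).1 else ∅,
    fun p => ?_, ?_⟩
  · dsimp only
    split_ifs with hp
    · rw [hp, hm]; exact hk _
    · exact h0 _
  · congr 1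
    ext x
    simp only [mem_iUnion]
    constructor
    · rintro ⟨n, hn⟩
      refine ⟨Nat.pair n (m n), ?_⟩
      simpa using hn
    · rintro ⟨p, hp⟩
      split_ifs at hp with h2
      · exact ⟨_, hp⟩
      · exact hp.elim

end encode

theorem countable_lt {γ : Ordinal.{0}} (h : γ < (aleph 1).ord) :
    Countable {β : Ordinal.{0} // β < γ} := by
  have h1 : γ.card < aleph 1 := lt_ord.1 h
  have h2 : γ.card ≤ ℵ₀ := by
    rw [← succ_aleph0] at h1
    exact Order.lt_succ_iff.1 h1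
  have h3 : #(Iio γ) ≤ ℵ₀ := by
    rw [mk_Iio_ordinal, ← lift_aleph0.{1, 0}]
    exact lift_le.2 h2
  exact Cardinal.mk_le_aleph0_iff.1 h3

/-- (B5) encoding: all sets of class `≤ α`, cut down to a second countable subspace, have codes of
one and the same shape -/
theorem encode {X : Type u} [TopologicalSpace X] {S : Ordinal.{0} → Set (Set X)}
    (hS : IsHier S) {Z : Type u} (e : Z → X) (B : ℕ → Set Z)
    (hB : ∀ O : Set X, IsOpen O → ∃ c : ℕ → Prop, ∀ z, e z ∈ O ↔ ∃ n, c n ∧ z ∈ B n)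
    (α : Ordinal.{0}) (h' : α < (aleph 1).ord) :
    ∃ t : Shape, ∀ A ∈ CC S α, ∃ c : Coord t → Prop, ∀ z, e z ∈ A ↔ z ∈ evalC B t c := by
  have h1lt : (1 : Ordinal.{0}) < (aleph 1).ord := by
    rw [ord_aleph]
    exact Ordinal.one_lt_omega0.trans_le (Ordinal.omega0_le_omega 1)
  have h1 : Enc e B (S 1) := by
    refine ⟨Shape.leaf, fun A hA => ?_⟩
    rw [hS.one] at hA
    obtain ⟨c, hc⟩ := hB A hA
    exact ⟨c, hc⟩
  have hbase : ∀ γ : Ordinal.{0}, 1 ≤ γ → γ < (aleph 1).ord →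
      (∅ : Set X) ∈ S γ ∧ (univ : Set X) ∈ S γ := by
    intro γ h1γ hγ
    rcases h1γ.eq_or_lt with rfl | h1γ
    · rw [hS.one]
      exact ⟨isOpen_empty, isOpen_univ⟩
    · rw [hS.step γ h1γ hγ]
      refine ⟨⟨fun _ => ∅, by simp, fun n => ⟨1, le_rfl, h1γ, ?_⟩⟩,
        ⟨fun _ => univ, (iUnion_const _).symm, fun n => ⟨1, le_rfl, h1γ, ?_⟩⟩⟩
      · rw [hS.one]; simp
      · rw [hS.one]; simp
  have hEnc : ∀ γ : Ordinal.{0}, 1 ≤ γ → γ < (aleph 1).ord → Enc e B (S γ) := by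
    intro γ
    induction γ using WellFoundedLT.induction with
    | ind γ ih =>
      intro h1γ hγ
      rcases h1γ.eq_or_lt with rfl | h1γ
      · exact h1
      · let κ := {β : Ordinal.{0} // 1 ≤ β ∧ β < γ}
        have : Countable κ := by
          have := countable_lt hγ
          exact Function.Injective.countable
            (f := fun b : κ => (⟨b.1, b.2.2⟩ : {β : Ordinal.{0} // β < γ}))
            (fun a b hab => Subtype.ext (congrArg (fun x => x.1) hab))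
        have : Nonempty κ := ⟨⟨1, le_rfl, h1γ⟩⟩
        have h2 := Enc.iUnion e B (κ := κ) (𝒜 := fun b => {A | Aᶜ ∈ S b.1})
          (fun b => (ih b.1 b.2.2 b.2.1 (b.2.2.trans hγ)).compl)
          (fun b => by simpa using (hbase b.1 b.2.1 (b.2.2.trans hγ)).2)
        refine Enc.mono e B ?_ h2
        intro A hA
        rw [hS.step γ h1γ hγ] at hA
        obtain ⟨f, rfl, hf⟩ := hA
        refine ⟨f, fun n => ?_, rfl⟩
        obtain ⟨β, hβ1, hβ, hfb⟩ := hf n
        exact ⟨⟨β, hβ1, hβ⟩, hfb⟩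
  rcases lt_or_ge α 1 with h0 | h0
  · refine ⟨Shape.leaf, ?_⟩
    rintro A ⟨γ, hγ1, hγ, -⟩
    exact absurd (hγ1.trans hγ) (not_le.2 h0)
  · let κ := Bool × {β : Ordinal.{0} // 1 ≤ β ∧ β ≤ α}
    have : Countable {β : Ordinal.{0} // 1 ≤ β ∧ β ≤ α} := by
      have hs : α + 2 < (aleph 1).ord := add_two_lt h'
      have := countable_lt hs
      have hlt : α < α + 2 := by
        have : (0 : Ordinal.{0}) < 2 := by norm_num
        simpa using (add_lt_add_iff_left α).2 this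
      exact Function.Injective.countable
        (f := fun b : {β : Ordinal.{0} // 1 ≤ β ∧ β ≤ α} =>
          (⟨b.1, b.2.2.trans_lt hlt⟩ : {β : Ordinal.{0} // β < α + 2}))
        (fun a b hab => Subtype.ext (congrArg (fun x => x.1) hab))
    have : Nonempty κ := ⟨⟨true, 1, le_rfl, h0⟩⟩
    have h2 := Enc.iUnion e B (κ := κ)
      (𝒜 := fun b => {A | (b.1 = true → A ∈ S b.2.1) ∧ (b.1 = false → Aᶜ ∈ S b.2.1)})
      (fun b => by
        have h3 := hEnc b.2.1 b.2.2.1 (b.2.2.2.trans_lt h')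
        rcases b with ⟨b | b, c⟩
        · exact Enc.mono e B (fun A hA => hA.2 rfl) h3.compl
        · exact Enc.mono e B (fun A hA => hA.1 rfl) h3)
      (fun b => by
        have h3 := hbase b.2.1 b.2.2.1 (b.2.2.2.trans_lt h')
        exact ⟨fun _ => h3.1, fun _ => by simpa using h3.2⟩)
    refine Enc.mono e B ?_ h2
    rintro A ⟨γ, hγ1, hγ, -, hA⟩
    refine ⟨fun _ => A, fun _ => ?_, by rw [iUnion_const]⟩
    rcases hA with hA | hA
    · exact ⟨⟨true, γ, hγ1, hγ⟩, fun _ => hA, fun h => by simp at h⟩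
    · exact ⟨⟨false, γ, hγ1, hγ⟩, fun h => by simp at h, fun _ => hA⟩

end Pool.L5helper54.BA
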